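import Pool.Agent.L0h82.GT.Stm

/-! # Module INV of board GT -/

set_option autoImplicit false

namespace Pool.Agent.L0h68.GT

open Pool.Agent.L0h82.GT

universe u

theorem R_conj {X : Type u} {G : Subgroup (Equiv.Perm X)} {g : Equiv.Perm X} (hg : g ∈ G)
    (y a b c d : X) : R G (g y) (g a) (g b) (g c) (g d) ↔ R G y a b c d := by
  constructor
  · rintro ⟨f, hf, h1, h2, h3, h4, h5⟩
    refine ⟨g⁻¹ * f * g, G.mul_mem (G.mul_mem (G.inv_mem hg) hf) hg, ?_, ?_, ?_, ?_, ?_⟩ <;>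
      simp [Equiv.Perm.mul_apply, h1, h2, h3, h4, h5]
  · rintro ⟨f, hf, h1, h2, h3, h4, h5⟩
    refine ⟨g * f * g⁻¹, G.mul_mem (G.mul_mem hg hf) (G.inv_mem hg), ?_, ?_, ?_, ?_, ?_⟩ <;>
      simp [Equiv.Perm.mul_apply, h1, h2, h3, h4, h5]

theorem mt_lt : ∀ m < 6, ∀ y < 5, ∀ a < 5, mt m y a < 5 := by decide +kernel

theorem sepB : ∀ n ∈ List.range 6, ∀ m ∈ List.range 6, n ≠ m →
    ∃ y ∈ List.range 5, ∃ a ∈ List.range 5, ∃ c ∈ List.range 5,
    [y, a, mt n y a, c, mt n y c].Nodup ∧ ¬ (mt m y a = mt n y a ∧ mt m y c = mt n y c) := by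
  decide +kernel

theorem sep (n : ℕ) (hn : n < 6) (m : ℕ) (hm : m < 6) (hne : n ≠ m) : ∃ y < 5, ∃ a < 5, ∃ c < 5,
    [y, a, mt n y a, c, mt n y c].Nodup ∧ ¬ (mt m y a = mt n y a ∧ mt m y c = mt n y c) := by
  obtain ⟨y, hy, a, ha, c, hc, h⟩ := sepB n (List.mem_range.2 hn) m (List.mem_range.2 hm) hne
  exact ⟨y, List.mem_range.1 hy, a, List.mem_range.1 ha, c, List.mem_range.1 hc, h⟩

theorem t_INV : S_INV.{u} := by
  intro X G w
  refine ⟨fun n hn g hg => ?_, fun n m σ hn hm hσ hinj hst => ?_, fun n m hn hm => ?_⟩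
  · refine ⟨hn.1, fun y a b c d hy ha hb hc hd hnd => ?_⟩
    rw [← hn.2 y a b c d hy ha hb hc hd hnd]
    exact R_conj hg _ _ _ _ _
  · refine ⟨hm, fun y a b c d hy ha hb hc hd hnd => ?_⟩
    have hnd' : [σ y, σ a, σ b, σ c, σ d].Nodup := by
      have h1 : ([y, a, b, c, d].map σ).Nodup := by
        refine List.Nodup.map_on ?_ hnd
        intro p hp q hq hpq
        refine hinj p ?_ q ?_ hpq
        · simp only [List.mem_cons, List.not_mem_nil, or_false] at hp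
          rcases hp with rfl | rfl | rfl | rfl | rfl <;> assumption
        · simp only [List.mem_cons, List.not_mem_nil, or_false] at hq
          rcases hq with rfl | rfl | rfl | rfl | rfl <;> assumption
      exact h1
    have h2 := hn.2 (σ y) (σ a) (σ b) (σ c) (σ d) (hσ y hy) (hσ a ha) (hσ b hb) (hσ c hc)
      (hσ d hd) hnd'
    rw [h2, ← hst y hy a ha, ← hst y hy c hc]
    constructor
    · rintro ⟨h3, h4⟩
      exact ⟨hinj _ (mt_lt m hm y hy a ha) _ hb h3, hinj _ (mt_lt m hm y hy c hc) _ hd h4⟩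
    · rintro ⟨h3, h4⟩
      exact ⟨by rw [h3], by rw [h4]⟩
  · by_contra hne
    obtain ⟨y, hy, a, ha, c, hc, h1, h2⟩ := sep n hn.1 m hm.1 hne
    have hb := mt_lt n hn.1 y hy a ha
    have hd := mt_lt n hn.1 y hy c hc
    have h3 := hn.2 y a _ c _ hy ha hb hc hd h1
    have h4 := hm.2 y a _ c _ hy ha hb hc hd h1
    exact h2 (h4.1 (h3.2 ⟨rfl, rfl⟩))

end Pool.Agent.L0h68.GT
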